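import Pool.Agent.H24.EH.Defs
import Pool.Agent.H97.EH.FD
import Pool.Agent.H61.EH.Bd
import Pool.Agent.H98.EH.Left

/-!
# EHP (S06849): `FHyp` for `F_A` and `F_B` from its fields
-/

set_option autoImplicit false

open MeasureTheory Set Filter Topology
open scoped Real

noncomputable section

namespace Pool.Agent.H12.EH

open Pool.EH Pool.Agent.H24.EH

theorem rho_eq (l : ℝ) : rho l = rh l := rfl

/-- all fields of `FHyp` for `F_A` except `right` -/
theorem fhyp_A' {p : ℝ} (hp : 0 < p) (hp1 : p < 1)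
    (hright : ∃ K, ∀ l g, Real.log 8 ≤ l → 0 < g → |Real.cosh g - 2 * rho l| ≤ 1 →
      |FAl p l g| ≤ K ∧ |FAg p l g| ≤ K ∧ |FAgl p l g| ≤ K ∧ |FAgg p l g| ≤ K ∧
        |FA p l g - l - (-Real.log p)| ≤ K * Real.exp (-l)) :
    FHyp p (-Real.log p) (FA p) (FAl p) (FAg p) (FAll p) (FAgl p) (FAgg p)
      (Pool.Agent.H97.EH.FAllg p) where
  data := Pool.Agent.H97.EH.fdata_A hp hp1
  sign := fun l g hg hr => det_A hp hp1 hg hr
  err := by
    refine ⟨2 ^ 14 / (p * (1 - p)) ^ 3, fun l g hr hg hg1 => ?_⟩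
    have h := Pool.Agent.H61.EH.final_A hp hp1 hg hg1 hr
    rw [rho_eq]
    rw [mul_div_assoc, mul_assoc, ← mul_div_assoc] at *
    convert h using 1
  right := hright
  left := Pool.Agent.H98.EH.left_A hp hp1

/-- all fields of `FHyp` for `F_B` except `right` -/
theorem fhyp_B' {p : ℝ} (hp : 0 < p) (hp1 : p < 1)
    (hright : ∃ K, ∀ l g, Real.log 8 ≤ l → 0 < g → |Real.cosh g - 2 * rho l| ≤ 1 →
      |FBl p l g| ≤ K ∧ |FBg p l g| ≤ K ∧ |FBgl p l g| ≤ K ∧ |FBgg p l g| ≤ K ∧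
        |FB p l g - l - (-Real.log (1 - p))| ≤ K * Real.exp (-l)) :
    FHyp p (-Real.log (1 - p)) (FB p) (FBl p) (FBg p) (FBll p) (FBgl p) (FBgg p)
      (Pool.Agent.H97.EH.FBllg p) where
  data := Pool.Agent.H97.EH.fdata_B hp hp1
  sign := fun l g hg hr => det_B hp hp1 hg hr
  err := by
    refine ⟨2 ^ 14 / (p * (1 - p)) ^ 3, fun l g hr hg hg1 => ?_⟩
    have h := Pool.Agent.H61.EH.final_B hp hp1 hg hg1 hr
    rw [rho_eq]
    rw [mul_div_assoc, mul_assoc, ← mul_div_assoc] at *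
    convert h using 1
  right := hright
  left := Pool.Agent.H98.EH.left_B hp hp1

end Pool.Agent.H12.EH
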