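import Pool.Agent.H12.EH.FH
import Pool.Agent.H84.EH.Right

/-!
# EHP (S06849): `FHyp` for `F_A` and `F_B`
-/

set_option autoImplicit false

noncomputable section

namespace Pool.Agent.H12.EH

open Pool.EH Pool.Agent.H24.EH

/-- `FHyp` for `F_A` -/
theorem fhyp_A {p : ℝ} (hp : 0 < p) (hp1 : p < 1) :
    FHyp p (-Real.log p) (FA p) (FAl p) (FAg p) (FAll p) (FAgl p) (FAgg p)
      (Pool.Agent.H97.EH.FAllg p) :=
  fhyp_A' hp hp1 (Pool.Agent.H84.EH.right_A hp hp1)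

/-- `FHyp` for `F_B` -/
theorem fhyp_B {p : ℝ} (hp : 0 < p) (hp1 : p < 1) :
    FHyp p (-Real.log (1 - p)) (FB p) (FBl p) (FBg p) (FBll p) (FBgl p) (FBgg p)
      (Pool.Agent.H97.EH.FBllg p) :=
  fhyp_B' hp hp1 (Pool.Agent.H84.EH.right_B hp hp1)

end Pool.Agent.H12.EH
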